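import Pool.Agent.SZG.StmtsS

/-! Row LSH of the squad SZG: the normalised functions are short. -/

set_option autoImplicit false

namespace Pool.Agent.SZG.H97

open scoped BigOperators
open Pool.Agent.THS Pool.Agent.SZG

/-- **LSH** -/
theorem lsh (fnb : FnbStmt) (fex : FexStmt) (sel : SelStmt) (sho : ShoStmt)
    (shm : THS.ShmStatement) : LshStmt := by
  intro g L
  obtain ⟨c, hc⟩ := sho (max (Fintype.card (Ch g) * 2 ^ g) (Fintype.card (Ch g × Ch g) * 2 ^ g))
    (Fintype.card (Ch g)) L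
  refine ⟨Fintype.card (Ch g) * c, ?_⟩
  intro K I _ _ v θ ρ E L0 c' e s T x W X Z δ A R o l hρ0 hρ1 hρ hD hA hR hvA hvR hnf ho
  have hF := fnb K I v θ g E L0 c' e s T x W X Z δ A R o hD hvA hvR hnf ho
  have hX := fex K I v θ ρ g E L0 c' e s T x W X Z δ A R o hρ0 hρ1 hρ hD hA hR hvA hvR hnf ho
  obtain ⟨_, _, _, _, s5, _⟩ := sel K v hD.na
  obtain ⟨m1, _, _, _, m5⟩ := shm K v hD.na
  have h4 : ∀ a : Ch g, Short v
      (max (Fintype.card (Ch g) * 2 ^ g) (Fintype.card (Ch g × Ch g) * 2 ^ g)) 0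
      (fun k u => fn T A R Z δ o k u a * fn T A R Z δ o k (-u) (o k)) := by
    intro a
    have h := s5 (Fintype.card (Ch g)) (2 ^ g) 0 (Ch g) o
      (fun d k u => fn T A R Z δ o k u a * fn T A R Z δ o k (-u) d) rfl (le_refl 0)
      (fun d => by
        have h1 := hX 0 a d
        simpa only [add_zero, sub_zero] using h1)
    exact m1 _ _ 0 0 _ (le_max_left _ _) (le_refl 0) h
  have h5 : Short v
      (max (Fintype.card (Ch g) * 2 ^ g) (Fintype.card (Ch g × Ch g) * 2 ^ g)) 0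
      (fun k u => fn T A R Z δ o (k + 1) u (o (k + 1)) *
        fn T A R Z δ o (k - 1) (-u) (o (k - 1))) := by
    have h := s5 (Fintype.card (Ch g × Ch g)) (2 ^ g) 0 (Ch g × Ch g)
      (fun k => (o (k + 1), o (k - 1)))
      (fun d k u => fn T A R Z δ o (k + 1) u d.1 * fn T A R Z δ o (k - 1) (-u) d.2) rfl
      (le_refl 0) (fun d => hX 1 d.1 d.2)
    exact m1 _ _ 0 0 _ (le_max_right _ _) (le_refl 0) h
  have hS : ∀ a : Ch g, Short v c (θ ^ L) (fun k u => fn T A R Z δ o k u a) :=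
    hc K v θ (Ch g) o (fun a k u => fn T A R Z δ o k u a) rfl hD.na hD.th0 hD.th1
      (fun a k u => (hF k u).2.1 a) (fun a k u => (hF k u).2.2.2 a)
      (fun k => (hF k 0).2.2.1) h4 h5
  have hS2 := s5 (Fintype.card (Ch g)) c (θ ^ L) (Ch g) o
    (fun a k u => fn T A R Z δ o k u a) rfl (pow_nonneg hD.th0.le L) hS
  refine ⟨m5 _ _ _ (fun k => (l : ℤ) * k) (fun u => -u) hS2, ?_⟩
  intro k u
  have h6 := hF ((l : ℤ) * k) (-u)
  have h7 := h6.2.2.2 (o ((l : ℤ) * k))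
  rw [h6.2.2.1] at h7
  exact h7

end Pool.Agent.SZG.H97
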